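import Pool.Agent.R932.FP.Loc
import Pool.Agent.R932.EV.All

/-!
# Project FP: the full Lie algebra, symplectic and even orthogonal case
-/

set_option autoImplicit false
set_option linter.unusedSectionVars false
set_option linter.style.haveILetI false

open Matrix Polynomial Filter Topology NumberField IsDedekindDomain
open Pool.Agent.Y142.ZO Pool.Agent.Y142.ZI Pool.Agent.Y142.ZS
open Pool.Agent.Y142.ZD (GenO S_BADD)
open Pool.Agent.R932.PO (JTan IsForm Kind Fits Allows Sys JL det_map_ne IndRoot)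
open Pool.Agent.R932.EV (SS SC full_of_genP full_of_genO full_of_good alg_top)
open Pool.Agent.R932.GR (Lc embC)

namespace Pool.Agent.R932.FP

noncomputable section

section
variable {K : Type} [Field K] [NumberField K] {N : ℕ} {S : Set (HeightOneSpectrum (𝓞 K))}
  {P : HeightOneSpectrum (𝓞 K) → ℚ[X]} {q : HeightOneSpectrum (𝓞 K) → ℚ} {ℓ : ℕ}

/-- the conditions on the Frobenius polynomials in the symplectic and in the even orthogonal case -/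
def CondE (S : Set (HeightOneSpectrum (𝓞 K))) (P : HeightOneSpectrum (𝓞 K) → ℚ[X])
    (q : HeightOneSpectrum (𝓞 K) → ℚ) (N ℓ : ℕ) [Fact ℓ.Prime] : Prop :=
  (∀ d, 0 < d → d < N → ∃ v ∉ S, (ℓ : 𝓞 K) ∉ v.asIdeal ∧ IsNice (P v) ∧
    ∀ R : ℚ_[ℓ][X], R.Monic → R.natDegree = d → ¬ R ∣ (P v).map (algebraMap ℚ ℚ_[ℓ])) ∧
  (∃ v ∉ S, (ℓ : 𝓞 K) ∉ v.asIdeal ∧ IsNice (P v) ∧
    ∃ x : ℚ_[ℓ], ((P v).map (algebraMap ℚ ℚ_[ℓ])).eval x = 0) ∧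
  ∃ v ∉ S, (ℓ : 𝓞 K) ∉ v.asIdeal ∧ IsGeneric (q v) (P v)

theorem monic_of {G : Type} [Group G] [Fact ℓ.Prime] {ρ : G →* Matrix (Fin N) (Fin N) ℚ_[ℓ]} {γ : G}
    {R : ℚ[X]} (h : (ρ γ).charpoly = R.map (algebraMap ℚ ℚ_[ℓ])) : R.Monic := by
  have h1 : (R.map (algebraMap ℚ ℚ_[ℓ])).Monic := by
    rw [← h]
    exact charpoly_monic _
  exact (Polynomial.monic_map_iff).1 h1

/-- strong irreducibility and scalar commutants -/
theorem strong_sc [Fact ℓ.Prime] {ρ : GK K →* Matrix (Fin N) (Fin N) ℚ_[ℓ]} (hρ : Continuous ρ)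
    (hfrob : ∀ v ∉ S, (ℓ : 𝓞 K) ∉ v.asIdeal → ∀ σ : GK K, IsFrobenius v σ →
      (ρ σ⁻¹).charpoly = (P v).map (algebraMap ℚ ℚ_[ℓ]))
    (h : CondE S P q N ℓ) : StronglyIrreducible ℓ ρ ∧ SC ρ := by
  have h1 : StronglyIrreducible ℓ ρ := strong_of_degrees hρ fun d hd hdN => by
    obtain ⟨v, hv, hvℓ, hn, hno⟩ := h.1 d hd hdN
    obtain ⟨σ, hσ⟩ := Pool.Agent.W401.Frob.exists_frob v
    exact ⟨σ⁻¹, P v, hfrob v hv hvℓ σ hσ, hn, hno⟩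
  refine ⟨h1, ?_⟩
  obtain ⟨v, hv, hvℓ, hn, x, hx⟩ := h.2.1
  obtain ⟨σ, hσ⟩ := Pool.Agent.W401.Frob.exists_frob v
  exact sc_of_root h1 σ⁻¹ (hfrob v hv hvℓ σ hσ) hn hx

theorem gen_QQ {R : ℚ[X]} {c : ℚ} (h : IsGeneric c R) : ∀ x y z w : QQ, aeval x R = 0 →
    aeval y R = 0 → aeval z R = 0 → aeval w R = 0 → x ≠ y → x * w = z * y →
    (z = x ∧ w = y) ∨ (z * y = (c : QQ) ∧ w * x = (c : QQ)) := by
  intro x y z w hx hy hz hw hxy hxw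
  obtain ⟨e⟩ := exists_QC
  rcases h.2.2 (e x) (e y) (e z) (e w) (root_QC R e hx) (root_QC R e hy) (root_QC R e hz)
    (root_QC R e hw) (fun h => hxy (e.injective h)) (by rw [← map_mul, ← map_mul, hxw]) with h1 | h1
  · exact Or.inl ⟨e.injective h1.1, e.injective h1.2⟩
  · right
    constructor
    · apply e.injective
      rw [map_mul, map_ratCast, h1.1]
    · apply e.injective
      rw [map_mul, map_ratCast, h1.2]

theorem nice_QQ {R : ℚ[X]} (h : IsNice R) : ∀ (j : ℕ) (x y : QQ), 0 < j → aeval x R = 0 →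
    aeval y R = 0 → x ^ j = y ^ j → x = y := by
  intro j x y hj hx hy hxy
  obtain ⟨e⟩ := exists_QC
  apply e.injective
  refine h.2 j hj (e x) (e y) (root_QC R e hx) (root_QC R e hy) ?_
  rw [← map_pow, ← map_pow, hxy]

/-- **the full symplectic Lie algebra** -/
theorem full_sp [hℓ : Fact ℓ.Prime] (hN : 0 < N) {ρ : GK K →* Matrix (Fin N) (Fin N) ℚ_[ℓ]}
    (hρ : Continuous ρ) {J : Matrix (Fin N) (Fin N) ℚ_[ℓ]} (hJ : Jᵀ = -J) (hdet : J.det ≠ 0)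
    (hsim : ∀ g, ∃ c, Sim J (ρ g) c) (hq : ∀ v, q v ≠ 0)
    (hfrob : ∀ v ∉ S, (ℓ : 𝓞 K) ∉ v.asIdeal → ∀ σ : GK K, IsFrobenius v σ →
      (ρ σ⁻¹).charpoly = (P v).map (algebraMap ℚ ℚ_[ℓ]) ∧ Sim J (ρ σ⁻¹) (q v : ℚ_[ℓ]))
    (h : CondE S P q N ℓ) : ∀ X, SpLie J X → IsTangent ℓ ρ X := by
  obtain ⟨h1, h2⟩ := strong_sc hρ (fun v hv hvℓ σ hσ => (hfrob v hv hvℓ σ hσ).1) h
  obtain ⟨w, hw, hwℓ, hgen⟩ := h.2.2
  obtain ⟨σ, hσ⟩ := Pool.Agent.W401.Frob.exists_frob w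
  have hGP : GenP S P q w := ⟨hw, monic_of (hfrob w hw hwℓ σ hσ).1, hgen.1.1, hq w,
    gen_QQ hgen⟩
  exact full_of_genP hGP ℓ (MonoidHom.id (GK K)) ρ J hJ hdet hsim
    (fun σ hσ => hfrob w hw hwℓ σ hσ) (fun 𝒜 h𝒜 => alg_top ρ hρ hN h1 h2 𝒜 h𝒜)

/-- **the full orthogonal Lie algebra, even rank** -/
theorem full_oe [hℓ : Fact ℓ.Prime] (hN : 0 < N) {ρ : GK K →* Matrix (Fin N) (Fin N) ℚ_[ℓ]}
    (hρ : Continuous ρ) {J : Matrix (Fin N) (Fin N) ℚ_[ℓ]} (hJ : Jᵀ = J) (hdet : J.det ≠ 0)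
    (hiso : ∀ g, Isom J (ρ g)) (hq : ∀ v, q v = 1)
    (hfrob : ∀ v ∉ S, (ℓ : 𝓞 K) ∉ v.asIdeal → ∀ σ : GK K, IsFrobenius v σ →
      (ρ σ⁻¹).charpoly = (P v).map (algebraMap ℚ ℚ_[ℓ]))
    (h : CondE S P q N ℓ) : ∀ X, SpLie J X → IsTangent ℓ ρ X := by
  obtain ⟨h1, h2⟩ := strong_sc hρ hfrob h
  obtain ⟨w, hw, hwℓ, hgen⟩ := h.2.2
  obtain ⟨σ, hσ⟩ := Pool.Agent.W401.Frob.exists_frob w
  have hGO : GenO S P w := by
    refine ⟨⟨hw, monic_of (hfrob w hw hwℓ σ hσ), hgen.1.1, nice_QQ hgen.1⟩, ?_, ?_⟩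
    · intro x hx hxx
      obtain ⟨e⟩ := exists_QC
      refine hgen.2.1 (e x) (root_QC _ e hx) ?_
      rw [← map_mul, hxx, map_one, hq, Rat.cast_one]
    · intro x y z w' hx hy hz hw' hxy hxw
      have h3 := gen_QQ hgen x y z w' hx hy hz hw' hxy hxw
      rw [hq, Rat.cast_one] at h3
      exact h3
  have h4 := full_of_genO hGO ℓ (MonoidHom.id (GK K)) ρ J hJ hdet hiso
    (fun σ hσ => hfrob w hw hwℓ σ hσ) (fun 𝒜 h𝒜 => alg_top ρ hρ hN h1 h2 𝒜 h𝒜)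
  exact fun X hX => h4 X ((PO.skew_sp hJ).2 hX)

end

end

end Pool.Agent.R932.FP
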