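import Pool.Agent.R932.FP.Main
import Pool.Agent.R932.GR.St

/-!
# Project FP: the full groups from Frobenius polynomials at one prime
-/

set_option autoImplicit false
set_option linter.unusedSectionVars false
set_option linter.style.haveILetI false

open Matrix Polynomial Filter Topology NumberField IsDedekindDomain
open Pool.Agent.Y142.ZO Pool.Agent.Y142.ZI Pool.Agent.Y142.ZS
open Pool.Agent.R932.PO (JTan IsForm Kind Fits Allows Sys JL det_map_ne)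
open Pool.Agent.R932.EV (SS SC)
open Pool.Agent.R932.GR

namespace Pool.Agent.R932.FP

noncomputable section

section
variable {K : Type} [Field K] [NumberField K] {ι : Type} [Fintype ι] [DecidableEq ι] {N w : ι → ℕ}
  {m : ℕ} {Γ : Type} [Group Γ] [TopologicalSpace Γ] [IsTopologicalGroup Γ] [CompactSpace Γ]
  {S : Set (HeightOneSpectrum (𝓞 K))} {P : ι → HeightOneSpectrum (𝓞 K) → ℚ[X]}
  {kd : ι → Kind} {s : GK K →* Γ}

/-- the point is a similitude in the component of the image of some element of the Galois group -/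
def SimG (w : ι → ℕ) (J : ∀ i, Matrix (Fin (N i)) (Fin (N i)) ℚ)
    (α : Γ →* Matrix (Fin m) (Fin m) ℚ)
    (ρ : ∀ (i : ι) (ℓ : ℕ) [Fact ℓ.Prime], Γ →* Matrix (Fin (N i)) (Fin (N i)) ℚ_[ℓ])
    (x : ∀ i, Matrix (Fin (N i)) (Fin (N i)) ℂ) (a : Matrix (Fin m) (Fin m) ℂ) : Prop :=
  (∃ t : ℂ, t ≠ 0 ∧ ∀ i, Sim ((J i).map (algebraMap ℚ ℂ)) (x i) (t ^ w i)) ∧
  ∃ σ : Γ, a = (α σ).map (algebraMap ℚ ℂ) ∧ ∀ i, (J i)ᵀ = J i → ∀ (ℓ : ℕ) [Fact ℓ.Prime],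
    ((x i).det = 1 ↔ (ρ i ℓ σ).det = 1)

/-- **full groups from Frobenius polynomials at one prime** -/
theorem fp_group (hS : S.Finite) (hs : Continuous s)
    (J : ∀ i, Matrix (Fin (N i)) (Fin (N i)) ℚ)
    (hfit : ∀ i, Fits (kd i) (J i)) (hdet : ∀ i, (J i).det ≠ 0) (hw : ∀ i, (J i)ᵀ = J i → w i = 0)
    (α : Γ →* Matrix (Fin m) (Fin m) ℚ) {U : Subgroup Γ} (hU : IsOpen (U : Set Γ))
    (hUα : ∀ σ ∈ U, α σ = 1)
    (κ : ∀ (ℓ : ℕ) [Fact ℓ.Prime], Γ →* ℚ_[ℓ])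
    (hκ : ∀ (ℓ : ℕ) [Fact ℓ.Prime], ∀ v ∉ S, (ℓ : 𝓞 K) ∉ v.asIdeal → ∀ σ : GK K, IsFrobenius v σ →
      κ ℓ (s σ⁻¹) = (Ideal.absNorm v.asIdeal : ℚ_[ℓ]))
    (ρ : ∀ (i : ι) (ℓ : ℕ) [Fact ℓ.Prime], Γ →* Matrix (Fin (N i)) (Fin (N i)) ℚ_[ℓ])
    (hρc : ∀ (i : ι) (ℓ : ℕ) [Fact ℓ.Prime], Continuous (ρ i ℓ))
    (hmult : ∀ (i : ι) (ℓ : ℕ) [Fact ℓ.Prime] (g : Γ),
      Sim (JL J ℓ i) (ρ i ℓ g) (κ ℓ g ^ w i))
    (hfrob : ∀ (i : ι) (ℓ : ℕ) [Fact ℓ.Prime], ∀ v ∉ S, (ℓ : 𝓞 K) ∉ v.asIdeal → ∀ σ : GK K,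
      IsFrobenius v σ → (ρ i ℓ (s σ⁻¹)).charpoly = (P i v).map (algebraMap ℚ ℚ_[ℓ]))
    (Pol : Set (Pa ℚ N m))
    (hpol : ∀ (x : ∀ i, Matrix (Fin (N i)) (Fin (N i)) ℂ) (a : Matrix (Fin m) (Fin m) ℂ),
      (∀ i, (x i).det ≠ 0) → a.det ≠ 0 → (∀ f ∈ Pol, vala f x a = 0) → SimG w J α ρ x a)
    (hgal : ∀ (ℓ : ℕ) [Fact ℓ.Prime] (σ : Γ), ∀ f ∈ Pol,
      vala f (fun i => ρ i ℓ σ) ((α σ).map (algebraMap ℚ ℚ_[ℓ])) = 0)
    (ℓ₀ : ℕ) [hℓ₀ : Fact ℓ₀.Prime] (hal : ∀ i, Allows (kd i) (N i) ℓ₀ (JL J ℓ₀ i))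
    (hcond : ∀ i, CondK (kd i) S (P i) (fun v => (Ideal.absNorm v.asIdeal : ℚ) ^ w i) (N i) ℓ₀)
    (hpair : ∀ i j, i ≠ j → ∃ v ∉ S, (ℓ₀ : 𝓞 K) ∉ v.asIdeal ∧
      Indep ((Ideal.absNorm v.asIdeal : ℚ) ^ w i) (P i v) (P j v)) :
    (∀ (x : ∀ i, Matrix (Fin (N i)) (Fin (N i)) ℂ) (a : Matrix (Fin m) (Fin m) ℂ),
      SimG w J α ρ x a → ∀ f ∈ Pol, vala f x a = 0) ∧
    MTateA Pol (fun i => ρ i ℓ₀) α ∧
    Y142.ZI.DensityZero {ℓ | ∃ _ : Fact ℓ.Prime, ¬ MTateA Pol (fun i => ρ i ℓ) α} ∧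
    ∀ (ℓ : ℕ) [Fact ℓ.Prime], (∀ i, SS (ρ i ℓ)) → (∀ i, SC (ρ i ℓ)) →
      MTateA Pol (fun i => ρ i ℓ) α := by
  classical
  have hfitL : ∀ (ℓ : ℕ) [Fact ℓ.Prime] (i : ι), Fits (kd i) (JL J ℓ i) := fun ℓ _ i =>
    (hfit i).map (algebraMap ℚ ℚ_[ℓ])
  have hdetL : ∀ (ℓ : ℕ) [Fact ℓ.Prime] (i : ι), (JL J ℓ i).det ≠ 0 := fun ℓ _ i =>
    det_map_ne (algebraMap ℚ ℚ_[ℓ]) (hdet i)
  have hform : ∀ (ℓ : ℕ) [Fact ℓ.Prime] (i : ι), IsForm (JL J ℓ i) := fun ℓ _ i =>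
    (hfitL ℓ i).isForm (hdetL ℓ i)
  have hsymJ : ∀ (ℓ : ℕ) [Fact ℓ.Prime] (i : ι), (JL J ℓ i)ᵀ = JL J ℓ i → (J i)ᵀ = J i := by
    intro ℓ _ i h
    ext p q
    have h1 := congrFun (congrFun h p) q
    exact (algebraMap ℚ ℚ_[ℓ]).injective h1
  have hsys : ∀ (i : ι) (ℓ : ℕ) [Fact ℓ.Prime], Sys s (kd i) (N i) ℓ (ρ i ℓ)
      (JL J ℓ i) S (P i) (fun v => (Ideal.absNorm v.asIdeal : ℚ) ^ w i) := by
    intro i ℓ _
    refine ⟨hρc i ℓ, hfitL ℓ i, hdetL ℓ i, fun γ => ⟨κ ℓ γ ^ w i, hmult i ℓ γ, fun h => ?_⟩, ?_⟩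
    · rw [hw i (hsymJ ℓ i h), pow_zero]
    · intro v hv hvℓ σ hσ
      refine ⟨hfrob i ℓ v hv hvℓ σ hσ, ?_⟩
      have h1 : Sim (JL J ℓ i) (ρ i ℓ (s σ⁻¹)) (κ ℓ (s σ⁻¹) ^ w i) := hmult i ℓ (s σ⁻¹)
      rw [hκ ℓ v hv hvℓ σ hσ] at h1
      show (ρ i ℓ (s σ⁻¹))ᵀ * JL J ℓ i * ρ i ℓ (s σ⁻¹) =
        (((Ideal.absNorm v.asIdeal : ℚ) ^ w i : ℚ) : ℚ_[ℓ]) • JL J ℓ i
      rw [Rat.cast_pow, Rat.cast_natCast]
      exact h1
  have hJC : ∀ (ℓ : ℕ) [Fact ℓ.Prime] (e : Lc ℓ →+* ℂ) (i : ι),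
      (up (JL J ℓ) i).map e = (J i).map (algebraMap ℚ ℂ) := by
    intro ℓ _ e i
    ext k l
    show e (algebraMap ℚ_[ℓ] (Lc ℓ) (algebraMap ℚ ℚ_[ℓ] (J i k l))) = algebraMap ℚ ℂ (J i k l)
    have h7 : e.comp ((algebraMap ℚ_[ℓ] (Lc ℓ)).comp (algebraMap ℚ ℚ_[ℓ])) = algebraMap ℚ ℂ :=
      Subsingleton.elim _ _
    exact RingHom.congr_fun h7 _
  have hmd : ∀ {F F' : Type} [Field F] [Field F'] (e : F →+* F') {n : ℕ}
      (A : Matrix (Fin n) (Fin n) F), (A.map e).det = e A.det := by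
    intro F F' _ _ e n A
    rw [RingHom.map_det, RingHom.mapMatrix_apply]
  have hpm : ∀ {F : Type} [Field F] {n : ℕ} {A X : Matrix (Fin n) (Fin n) F}, A.det ≠ 0 →
      Sim A X 1 → X.det = 1 ∨ X.det = -1 := by
    intro F _ n A X hA h1
    unfold Sim at h1
    rw [one_smul] at h1
    have h2 := congrArg Matrix.det h1
    rw [det_mul, det_mul, det_transpose] at h2
    have h4 : X.det * X.det = 1 := by
      have h5 : A.det * (X.det * X.det - 1) = 0 := by linear_combination h2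
      exact sub_eq_zero.1 ((mul_eq_zero.1 h5).resolve_left hA)
    exact mul_self_eq_one_iff.1 h4
  have hfull₀ : ∀ X, (∀ i, SpLie (JL J ℓ₀ i) (X i)) →
      JTan ℓ₀ (fun i => (ρ i ℓ₀).comp s) X :=
    joint_one hs J hfit hdet hw ℓ₀ (κ ℓ₀) (hκ ℓ₀) (fun i => ρ i ℓ₀) (fun i => hρc i ℓ₀)
      (fun i g => hmult i ℓ₀ g) (fun i => hfrob i ℓ₀) hcond hpair
  have hsev := PO.several (K := K) PO.tasks hs hS ρ (fun i ℓ _ => JL J ℓ i) hsys ℓ₀ hal hfull₀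
  have hinf : ∀ (ℓ : ℕ) [Fact ℓ.Prime], ∃ σ, ∀ k : ℕ, 0 < k → κ ℓ σ ^ k ≠ 1 := by
    intro ℓ hℓ
    obtain ⟨v, hv, σ', hσ', -⟩ := Y405.ZO.t K Set.univ isOpen_univ ⟨1, trivial⟩
      (S ∪ {v | (ℓ : 𝓞 K) ∈ v.asIdeal}) (hS.union (finite_above ℓ hℓ.out))
    have hvS : v ∉ S := fun h => hv (Or.inl h)
    have hvℓ : (ℓ : 𝓞 K) ∉ v.asIdeal := fun h => hv (Or.inr h)
    refine ⟨s σ'⁻¹, fun k hk h => ?_⟩
    rw [hκ ℓ v hvS hvℓ σ' hσ'] at h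
    have h1 : (Ideal.absNorm v.asIdeal) ^ k = 1 := by exact_mod_cast h
    have h2 : Ideal.absNorm v.asIdeal = 1 := by
      rcases Nat.pow_eq_one.1 h1 with h3 | h3
      · exact h3
      · omega
    exact v.isPrime.ne_top (Ideal.absNorm_eq_one_iff.1 h2)
  have hupa : ∀ (ℓ : ℕ) [Fact ℓ.Prime] (σ : Γ),
      ((α σ).map (algebraMap ℚ ℚ_[ℓ])).map (algebraMap ℚ_[ℓ] (Lc ℓ)) = upa ℓ (α σ) := by
    intro ℓ _ σ
    ext k l
    show algebraMap ℚ_[ℓ] (Lc ℓ) (algebraMap ℚ ℚ_[ℓ] (α σ k l)) = algebraMap ℚ (Lc ℓ) (α σ k l)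
    have h7 : (algebraMap ℚ_[ℓ] (Lc ℓ)).comp (algebraMap ℚ ℚ_[ℓ]) = algebraMap ℚ (Lc ℓ) :=
      Subsingleton.elim _ _
    exact RingHom.congr_fun h7 _
  have hgalL : ∀ (ℓ : ℕ) [Fact ℓ.Prime], ∀ f ∈ Pol, ∀ σ : Γ,
      eva (up fun i => ρ i ℓ σ) (upa ℓ (α σ)) (MvPolynomial.map (algebraMap ℚ (Lc ℓ)) f) = 0 := by
    intro ℓ _ f hf σ
    rw [eva_vala]
    have h1 := vala_map (algebraMap ℚ_[ℓ] (Lc ℓ)) f (fun i => ρ i ℓ σ)
      ((α σ).map (algebraMap ℚ ℚ_[ℓ]))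
    rw [hgal ℓ σ f hf, map_zero, hupa] at h1
    exact h1
  -- points in the closure
  have hpt : ∀ (ℓ : ℕ) [Fact ℓ.Prime],
      (∀ X, (∀ i, SpLie (JL J ℓ i) (X i)) → JTan ℓ (fun i => ρ i ℓ) X) →
      ∀ (x : ∀ i, Matrix (Fin (N i)) (Fin (N i)) (Lc ℓ)) (a : Matrix (Fin m) (Fin m) (Lc ℓ))
      (e : Lc ℓ ≃+* ℂ), SimG w J α ρ (fun i => (x i).map e.toRingHom) (a.map e.toRingHom) →
      ClA (fun i => ρ i ℓ) α x a := by
    rintro ℓ hℓ hfull x a e ⟨⟨t, ht, hx⟩, σ₁, hσa, hσd⟩ f hf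
    have hαa : a = upa ℓ (α σ₁) := by
      ext k l
      apply e.injective
      have h2 := congrFun (congrFun hσa k) l
      refine h2.trans ?_
      show algebraMap ℚ ℂ (α σ₁ k l) = e.toRingHom (algebraMap ℚ (Lc ℓ) (α σ₁ k l))
      have h7 : algebraMap ℚ ℂ = e.toRingHom.comp (algebraMap ℚ (Lc ℓ)) := Subsingleton.elim _ _
      exact RingHom.congr_fun h7 _
    have hsimx : ∀ i, Sim (up (JL J ℓ) i) (x i) (e.symm t ^ w i) := by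
      intro i
      have h1 := hx i
      unfold Sim at h1 ⊢
      rw [← hJC ℓ e.toRingHom i, ← Matrix.transpose_map, ← Matrix.map_mul, ← Matrix.map_mul] at h1
      ext k l
      apply e.injective
      have h2 := congrFun (congrFun h1 k) l
      rw [Matrix.smul_apply, Matrix.map_apply, Matrix.map_apply, smul_eq_mul] at h2
      rw [Matrix.smul_apply, smul_eq_mul, map_mul, map_pow, RingEquiv.apply_symm_apply]
      exact h2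
    have hdets : ∀ i, (JL J ℓ i)ᵀ = JL J ℓ i →
        (x i).det = algebraMap ℚ_[ℓ] (Lc ℓ) (ρ i ℓ σ₁).det := by
      intro i hi
      have hi' := hsymJ ℓ i hi
      have h1 := hσd i hi' ℓ
      rw [hmd] at h1
      have h2 : Sim (JL J ℓ i) (ρ i ℓ σ₁) 1 := by
        have h3 := hmult i ℓ σ₁
        rwa [hw i hi', pow_zero] at h3
      have hup : (up (JL J ℓ) i).det ≠ 0 := by
        rw [det_up]
        exact (_root_.map_ne_zero _).2 (hdetL ℓ i)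
      have h2' : Sim (up (JL J ℓ) i) (x i) 1 := by
        have h3 := hsimx i
        rwa [hw i hi', pow_zero] at h3
      rcases hpm (hdetL ℓ i) h2 with h3 | h3 <;> rcases hpm hup h2' with h4 | h4
      · rw [h3, h4, map_one]
      · exfalso
        have h5 := h1.2 h3
        rw [h4, map_neg, map_one] at h5
        norm_num at h5
      · exfalso
        have h5 := h1.1 (by rw [h4, map_one])
        rw [h3] at h5
        have h6 : (2 : ℚ_[ℓ]) = 0 := by linear_combination -h5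
        exact two_ne_zero h6
      · rw [h3, h4, map_neg, map_one]
    rw [← evf_spz]
    refine closure_coset (J := JL J ℓ) (fun i => hρc i ℓ) (hform ℓ)
      (fun i h => hw i (hsymJ ℓ i h)) (hmult · ℓ) (hinf ℓ) hfull (artin_index hU) (σ₁ := σ₁)
      (fun δ hδ => ?_) (t := e.symm t) ((_root_.map_ne_zero e.symm).2 ht) hsimx hdets
    rw [evf_spz, hαa, ← artin_coset hUα σ₁ hδ]
    exact hf _
  have hconc : ∀ (ℓ : ℕ) [Fact ℓ.Prime],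
      (∀ X, (∀ i, SpLie (JL J ℓ i) (X i)) → JTan ℓ (fun i => ρ i ℓ) X) →
      MTateA Pol (fun i => ρ i ℓ) α := by
    intro ℓ hℓ hfull x a hx ha
    constructor
    · intro hcl f hf
      rw [← eva_vala]
      exact hcl _ (hgalL ℓ f hf)
    · intro hPol
      obtain ⟨e⟩ := embC ℓ
      exact hpt ℓ hfull x a e (hpol (fun i => (x i).map e.toRingHom) (a.map e.toRingHom)
        (fun i => by rw [hmd]; exact (_root_.map_ne_zero e.toRingHom).2 (hx i))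
        (by rw [hmd]; exact (_root_.map_ne_zero e.toRingHom).2 ha)
        (fun f hf => by rw [vala_map, hPol f hf, map_zero]))
  have hfull₀' : ∀ X, (∀ i, SpLie (JL J ℓ₀ i) (X i)) → JTan ℓ₀ (fun i => ρ i ℓ₀) X := by
    intro X hX
    obtain ⟨σ, hσ⟩ := hfull₀ X hX
    exact ⟨fun k => s (σ k), hσ⟩
  refine ⟨?_, hconc ℓ₀ hfull₀', ?_, ?_⟩
  · intro x a hxa f hf
    obtain ⟨e⟩ := embC ℓ₀
    have hxe : ∀ i, ((x i).map e.symm.toRingHom).map e.toRingHom = x i := by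
      intro i
      ext k l
      exact e.apply_symm_apply _
    have hae : (a.map e.symm.toRingHom).map e.toRingHom = a := by
      ext k l
      exact e.apply_symm_apply _
    have h1 := hpt ℓ₀ hfull₀' (fun i => (x i).map e.symm.toRingHom) (a.map e.symm.toRingHom) e (by
      simp only [hxe, hae]
      exact hxa) (MvPolynomial.map (algebraMap ℚ (Lc ℓ₀)) f) (hgalL ℓ₀ f hf)
    rw [eva_vala] at h1
    have h2 := vala_map e.toRingHom f (fun i => (x i).map e.symm.toRingHom)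
      (a.map e.symm.toRingHom)
    rw [h1, map_zero] at h2
    simp only [hxe, hae] at h2
    exact h2
  · refine Y142.ZI.DensityZero.mono hsev.1 ?_
    rintro ℓ ⟨hp, hno⟩
    refine ⟨hp, fun hall' => hno (hconc ℓ fun X hX => ?_)⟩
    obtain ⟨σ, hσ⟩ := hall' X hX
    exact ⟨fun k => s (σ k), hσ⟩
  · intro ℓ _ hss hsc
    exact hconc ℓ fun X hX => hsev.2 ℓ hss hsc X hX

end

end

end Pool.Agent.R932.FP
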