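import Pool.Agent.R932.GR.Art
import Pool.Agent.R932.OP.SymA

/-!
# Project FP: the Lie algebra at one prime from Frobenius polynomials
-/

set_option autoImplicit false
set_option linter.unusedSectionVars false
set_option linter.style.haveILetI false

open Matrix Polynomial Filter Topology NumberField IsDedekindDomain
open Pool.Agent.Y142.ZO Pool.Agent.Y142.ZI Pool.Agent.Y142.ZS
open Pool.Agent.Y142.ZD (GenO S_BADD)
open Pool.Agent.R932.PO (JTan IsForm Kind Fits Allows Sys JL det_map_ne IndRoot)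
open Pool.Agent.R932.EV (SS SC)
open Pool.Agent.R932.GR (Lc embC)

namespace Pool.Agent.R932.FP

noncomputable section

/-- separable, and no quotient of different roots is a root of unity -/
def IsNice (P : ℚ[X]) : Prop :=
  P.Separable ∧ ∀ n : ℕ, 0 < n → ∀ x y : ℂ, aeval x P = 0 → aeval y P = 0 → x ^ n = y ^ n → x = y

/-- the quotients of different roots are as different as possible -/
def IsGeneric (q : ℚ) (P : ℚ[X]) : Prop :=
  IsNice P ∧ (∀ x : ℂ, aeval x P = 0 → x * x ≠ (q : ℂ)) ∧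
    ∀ x y z w : ℂ, aeval x P = 0 → aeval y P = 0 → aeval z P = 0 → aeval w P = 0 → x ≠ y →
      x * w = z * y → (z = x ∧ w = y) ∨ (z * y = (q : ℂ) ∧ w * x = (q : ℂ))

section
variable {ℓ : ℕ} [hℓ : Fact ℓ.Prime]

theorem root_C (P : ℚ[X]) (e : Lc ℓ →+* ℂ) {x : Lc ℓ}
    (hx : aeval x (P.map (algebraMap ℚ ℚ_[ℓ])) = 0) : aeval (e x) P = 0 := by
  rw [aeval_def, eval₂_map] at hx
  have h1 := congrArg e hx
  rw [map_zero, Polynomial.hom_eval₂] at h1
  rw [aeval_def]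
  have h2 : e.comp ((algebraMap ℚ_[ℓ] (Lc ℓ)).comp (algebraMap ℚ ℚ_[ℓ])) = algebraMap ℚ ℂ :=
    Subsingleton.elim _ _
  rw [h2] at h1
  exact h1

theorem IsNice.dist {P : ℚ[X]} (h : IsNice P) {n : ℕ} (hn : 0 < n) {x y : Lc ℓ}
    (hx : aeval x (P.map (algebraMap ℚ ℚ_[ℓ])) = 0)
    (hy : aeval y (P.map (algebraMap ℚ ℚ_[ℓ])) = 0) (hxy : x ^ n = y ^ n) : x = y := by
  obtain ⟨e⟩ := embC ℓ
  apply e.injective
  refine h.2 n hn (e x) (e y) (root_C P e.toRingHom hx) (root_C P e.toRingHom hy) ?_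
  rw [← map_pow, ← map_pow, hxy]

theorem exists_QC : Nonempty (QQ →+* ℂ) := by
  haveI : Fact (Nat.Prime 2) := ⟨Nat.prime_two⟩
  obtain ⟨ι⟩ := emb 2
  obtain ⟨e⟩ := embC 2
  exact ⟨e.toRingHom.comp ι⟩

theorem root_QC (P : ℚ[X]) (e : QQ →+* ℂ) {x : QQ} (hx : aeval x P = 0) : aeval (e x) P = 0 := by
  rw [aeval_def] at hx ⊢
  have h1 := congrArg e hx
  rw [map_zero, Polynomial.hom_eval₂] at h1
  have h2 : e.comp (algebraMap ℚ QQ) = algebraMap ℚ ℂ := Subsingleton.elim _ _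
  rw [h2] at h1
  exact h1

/-! ### scalar commutants -/

variable {N : ℕ} {G : Type} [Group G] [TopologicalSpace G]

/-- a simple eigenvalue whose powers are simple eigenvalues of the powers -/
theorem eigenline {g : Matrix (Fin N) (Fin N) ℚ_[ℓ]} {x : ℚ_[ℓ]} (hx : g.charpoly.eval x = 0)
    (hsep : g.charpoly.Separable) (hx0 : x ≠ 0)
    (hdist : ∀ n : ℕ, 0 < n → ∀ y : Lc ℓ, aeval y g.charpoly = 0 →
      y ^ n = (algebraMap ℚ_[ℓ] (Lc ℓ) x) ^ n → y = algebraMap ℚ_[ℓ] (Lc ℓ) x) :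
    ∃ v : Fin N → ℚ_[ℓ], v ≠ 0 ∧ g *ᵥ v = x • v ∧
      ∀ n : ℕ, 0 < n → ∀ u, g ^ n *ᵥ u = x ^ n • u → ∃ c : ℚ_[ℓ], u = c • v := by
  classical
  obtain ⟨f, hf⟩ : ∃ f : Module.End ℚ_[ℓ] (Fin N → ℚ_[ℓ]), f = toLin' g := ⟨_, rfl⟩
  have hcp : f.charpoly = g.charpoly := by rw [hf, Matrix.charpoly_toLin']
  have hfv : ∀ u, f u = g *ᵥ u := fun u => by rw [hf, toLin'_apply]
  have hroot : f.charpoly.IsRoot x := by rw [hcp]; exact hx
  have heig : Module.End.HasEigenvalue f x := by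
    rw [Module.End.hasEigenvalue_iff_isRoot_charpoly]
    exact hroot
  obtain ⟨v, hv⟩ := heig.exists_hasEigenvector
  have hfin : Module.finrank ℚ_[ℓ] (f.eigenspace x) ≤ 1 := by
    refine (LinearMap.finrank_eigenspace_le f x).trans ?_
    rw [hcp]
    exact Polynomial.rootMultiplicity_le_one_of_separable hsep x
  have hline : ∀ u, f u = x • u → ∃ c : ℚ_[ℓ], u = c • v := by
    intro u hu
    have h1 : Module.finrank ℚ_[ℓ] (f.eigenspace x) = 1 := by
      refine le_antisymm hfin ?_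
      rw [Nat.one_le_iff_ne_zero, ← Nat.pos_iff_ne_zero, Module.finrank_pos_iff]
      exact ⟨⟨⟨v, hv.1⟩, 0, fun h => hv.2 (congrArg Subtype.val h)⟩⟩
    obtain ⟨c, hc⟩ := (finrank_eq_one_iff_of_nonzero' (⟨v, hv.1⟩ : f.eigenspace x)
      (fun h => hv.2 (congrArg Subtype.val h))).1 h1 ⟨u, Module.End.mem_eigenspace_iff.2 hu⟩
    exact ⟨c, (congrArg Subtype.val hc).symm⟩
  refine ⟨v, hv.2, by rw [← hfv]; exact hv.apply_eq_smul, fun n hn u hu => ?_⟩
  apply hline
  -- the polynomial `(X ^ n - x ^ n) / (X - x)`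
  obtain ⟨H, hH⟩ : ∃ H : ℚ_[ℓ][X], X ^ n - C (x ^ n) = (X - C x) * H := by
    have h1 : (X - C x) ∣ (X ^ n - C (x ^ n)) := by
      rw [dvd_iff_isRoot, IsRoot.def, eval_sub, eval_pow, eval_X, eval_C, sub_self]
    exact h1
  have hcop : IsCoprime H f.charpoly := by
    refine (Polynomial.isCoprime_iff_aeval_ne_zero_of_isAlgClosed ℚ_[ℓ] (Lc ℓ) H
      f.charpoly).2 ?_
    intro y
    by_contra hcon
    push Not at hcon
    obtain ⟨h1, h2⟩ := hcon
    have h3 : y ^ n = (algebraMap ℚ_[ℓ] (Lc ℓ) x) ^ n := by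
      have h4 := congrArg (aeval y) hH
      rw [map_mul, h1, mul_zero, map_sub, map_pow, aeval_X, aeval_C, map_pow, sub_eq_zero] at h4
      exact h4
    rw [hcp] at h2
    have h4 := hdist n hn y h2 h3
    have h5 := congrArg derivative hH
    rw [derivative_sub, derivative_C, sub_zero, derivative_mul, derivative_sub, derivative_X,
      derivative_C, sub_zero, one_mul, derivative_X_pow] at h5
    have h6 := congrArg (aeval (algebraMap ℚ_[ℓ] (Lc ℓ) x)) h5
    rw [← h4] at h6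
    rw [map_add, h1, map_mul, map_mul, map_sub, aeval_X, aeval_C, map_pow, aeval_X, aeval_C, h4,
      sub_self, zero_mul, add_zero] at h6
    have h7 : (algebraMap ℚ_[ℓ] (Lc ℓ) x) ^ (n - 1) ≠ 0 :=
      pow_ne_zero _ ((_root_.map_ne_zero _).2 hx0)
    have h8 : algebraMap ℚ_[ℓ] (Lc ℓ) (n : ℚ_[ℓ]) ≠ 0 :=
      (_root_.map_ne_zero _).2 (by exact_mod_cast hn.ne')
    exact mul_ne_zero h8 h7 h6
  obtain ⟨A, B, hAB⟩ := hcop
  have h1 : aeval f H ((f - algebraMap _ _ x) u) = 0 := by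
    have h2 : aeval f (X ^ n - C (x ^ n)) u = 0 := by
      rw [map_sub, map_pow, aeval_X, aeval_C, LinearMap.sub_apply, Module.algebraMap_end_apply,
        sub_eq_zero]
      have h3 : (f ^ n) u = g ^ n *ᵥ u := by
        rw [hf, ← toLin'_pow, toLin'_apply]
      rw [h3, hu]
    rw [hH, mul_comm, map_mul, Module.End.mul_apply, map_sub, aeval_X, aeval_C] at h2
    exact h2
  have h2 : (f - algebraMap _ _ x) u = 0 := by
    have h3 := congrArg (fun p : ℚ_[ℓ][X] => aeval f p ((f - algebraMap _ _ x) u)) hAB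
    simp only [map_add, map_mul, map_one, Module.End.one_apply, LinearMap.add_apply,
      Module.End.mul_apply, h1, map_zero, zero_add, LinearMap.aeval_self_charpoly,
      LinearMap.zero_apply] at h3
    rw [← h3]
  rw [LinearMap.sub_apply, Module.algebraMap_end_apply, sub_eq_zero] at h2
  exact h2

/-- **scalar commutants from a root in `ℚ_ℓ`** -/
theorem sc_of_root [IsTopologicalGroup G] [CompactSpace G]
    {ρ : G →* Matrix (Fin N) (Fin N) ℚ_[ℓ]} (hSI : StronglyIrreducible ℓ ρ) (γ : G)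
    {P : ℚ[X]} (hP : (ρ γ).charpoly = P.map (algebraMap ℚ ℚ_[ℓ])) (hnice : IsNice P) {x : ℚ_[ℓ]}
    (hx : (P.map (algebraMap ℚ ℚ_[ℓ])).eval x = 0) : SC ρ := by
  classical
  intro A U hU hA
  have hx0 : x ≠ 0 := by
    rintro rfl
    have h1 : (ρ γ).det = 0 := by
      rw [det_eq_sign_charpoly_coeff, hP, coeff_zero_eq_eval_zero, hx, mul_zero]
    have h2 : (ρ γ).det * (ρ γ⁻¹).det = 1 := by
      rw [← det_mul, ← map_mul, mul_inv_cancel, map_one, det_one]
    rw [h1, zero_mul] at h2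
    exact zero_ne_one h2
  have hxr : aeval (algebraMap ℚ_[ℓ] (Lc ℓ) x) (P.map (algebraMap ℚ ℚ_[ℓ])) = 0 := by
    rw [aeval_algebraMap_apply_eq_algebraMap_eval, hx, map_zero]
  obtain ⟨v, hv0, hv, hline⟩ := eigenline (g := ρ γ) (x := x) (by rw [hP]; exact hx)
    (by rw [hP]; exact hnice.1.map) hx0 (fun n hn y hy hyn => by
      rw [hP] at hy
      exact hnice.dist hn hy hxr hyn)
  haveI hUf : U.FiniteIndex := by
    haveI := U.quotient_finite_of_isOpen hU
    exact Subgroup.finiteIndex_of_finite_quotient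
  obtain ⟨n, hn, -, hnU⟩ := U.exists_pow_mem_of_index_ne_zero hUf.index_ne_zero γ
  have h1 : ρ γ ^ n *ᵥ (A *ᵥ v) = x ^ n • (A *ᵥ v) := by
    have h2 : ρ γ ^ n *ᵥ v = x ^ n • v := by
      clear hnU hline
      induction n with
      | zero => rw [pow_zero, pow_zero, one_mulVec, one_smul]
      | succ n ih =>
        rcases Nat.eq_zero_or_pos n with h0 | h0
        · subst h0
          rw [zero_add, pow_one, pow_one, hv]
        · rw [pow_succ, ← mulVec_mulVec, hv, mulVec_smul, ih h0, smul_smul, pow_succ, mul_comm]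
    rw [mulVec_mulVec, ← map_pow, ← hA _ hnU, ← mulVec_mulVec, map_pow, h2, mulVec_smul]
  obtain ⟨c, hc⟩ := hline n hn _ h1
  refine ⟨c, ?_⟩
  -- the eigenspace of `A`
  let W : Submodule ℚ_[ℓ] (Fin N → ℚ_[ℓ]) := LinearMap.ker (toLin' (A - c • 1))
  have hmem : ∀ u, u ∈ W ↔ A *ᵥ u = c • u := by
    intro u
    rw [LinearMap.mem_ker, toLin'_apply, sub_mulVec, smul_mulVec, one_mulVec, sub_eq_zero]
  rcases hSI U W hU (fun σ hσ u hu => by
    rw [hmem] at hu ⊢
    rw [mulVec_mulVec, hA σ hσ, ← mulVec_mulVec, hu, mulVec_smul]) with h | h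
  · exfalso
    apply hv0
    have h2 : v ∈ W := (hmem v).2 hc
    rw [h] at h2
    exact (Submodule.mem_bot _).1 h2
  · ext a b
    have h2 : (Pi.single b 1 : Fin N → ℚ_[ℓ]) ∈ W := by rw [h]; exact Submodule.mem_top
    have h3 := congrFun ((hmem _).1 h2) a
    rw [mulVec_single_one, Matrix.col_apply, Pi.smul_apply, smul_eq_mul] at h3
    rw [h3, Matrix.smul_apply, smul_eq_mul, Matrix.one_apply, Pi.single_apply]

/-- **strong irreducibility from the degrees of factors** -/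
theorem strong_of_degrees [IsTopologicalGroup G] [CompactSpace G]
    {ρ : G →* Matrix (Fin N) (Fin N) ℚ_[ℓ]} (hρ : Continuous ρ)
    (h : ∀ d, 0 < d → d < N → ∃ (γ : G) (P : ℚ[X]),
      (ρ γ).charpoly = P.map (algebraMap ℚ ℚ_[ℓ]) ∧ IsNice P ∧
      ∀ R : ℚ_[ℓ][X], R.Monic → R.natDegree = d → ¬ R ∣ P.map (algebraMap ℚ ℚ_[ℓ])) :
    StronglyIrreducible ℓ ρ := by
  intro U W hU hW
  by_contra hcon
  push Not at hcon
  have hd0 : 0 < Module.finrank ℚ_[ℓ] W := by
    rw [Nat.pos_iff_ne_zero]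
    exact fun h0 => hcon.1 (Submodule.finrank_eq_zero.1 h0)
  have hdN : Module.finrank ℚ_[ℓ] W < N := by
    have h1 := Submodule.finrank_lt hcon.2
    rwa [Module.finrank_fin_fun] at h1
  obtain ⟨γ, P, hP, hnice, hno⟩ := h _ hd0 hdN
  obtain ⟨R, hRm, hRd, hR⟩ := Y614.ZD.t ℓ N G ρ hρ U W hU hW γ (by rw [hP]; exact hnice.1.map)
    (fun j x y hj hx hy hxy => by
      rw [hP] at hx hy
      exact hnice.dist hj hx hy hxy)
  rw [hP] at hR
  exact hno R hRm hRd hR

end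

end

end Pool.Agent.R932.FP
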