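import Pool.Agent.R932.FP.Odd

/-!
# Project FP: the identity component from Frobenius polynomials at one prime
-/

set_option autoImplicit false
set_option linter.unusedSectionVars false
set_option linter.style.haveILetI false

open Matrix Polynomial Filter Topology NumberField IsDedekindDomain
open Pool.Agent.Y142.ZO Pool.Agent.Y142.ZI Pool.Agent.Y142.ZS
open Pool.Agent.R932.PO (JTan IsForm Kind Fits Allows Sys JL det_map_ne)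
open Pool.Agent.R932.EV (SS SC)
open Pool.Agent.R932.GR

namespace Pool.Agent.R932.FP

noncomputable section

/-- the conditions for the different kinds -/
def CondK (kd : Kind) {K : Type} [Field K] [NumberField K] (S : Set (HeightOneSpectrum (𝓞 K)))
    (P : HeightOneSpectrum (𝓞 K) → ℚ[X]) (q : HeightOneSpectrum (𝓞 K) → ℚ) (N ℓ : ℕ)
    [Fact ℓ.Prime] : Prop :=
  match kd with
  | .odd => CondO S P ℓ
  | _ => CondE S P q N ℓ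

/-- a root of `P` is multiplicatively independent of the roots of `R` and of `q` -/
def Indep (q : ℚ) (P R : ℚ[X]) : Prop :=
  ∃ x : ℂˣ, aeval (x : ℂ) P = 0 ∧ ∀ m : ℕ, 0 < m →
    x ^ m ∉ Subgroup.closure {y : ℂˣ | aeval (y : ℂ) R = 0 ∨ (y : ℂ) = (q : ℂ)}

section
variable {K : Type} [Field K] [NumberField K] {ι : Type} [Fintype ι] [DecidableEq ι] {N w : ι → ℕ}
  {Γ : Type} [Group Γ] [TopologicalSpace Γ] [IsTopologicalGroup Γ] [CompactSpace Γ]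
  {S : Set (HeightOneSpectrum (𝓞 K))} {P : ι → HeightOneSpectrum (𝓞 K) → ℚ[X]}
  {kd : ι → Kind} {s : GK K →* Γ}

/-- **the joint Lie algebra at one prime** -/
theorem joint_one (hs : Continuous s) (J : ∀ i, Matrix (Fin (N i)) (Fin (N i)) ℚ)
    (hfit : ∀ i, Fits (kd i) (J i)) (hdet : ∀ i, (J i).det ≠ 0) (hw : ∀ i, (J i)ᵀ = J i → w i = 0)
    (ℓ : ℕ) [hℓ : Fact ℓ.Prime] (κ : Γ →* ℚ_[ℓ])
    (hκ : ∀ v ∉ S, (ℓ : 𝓞 K) ∉ v.asIdeal → ∀ σ : GK K, IsFrobenius v σ →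
      κ (s σ⁻¹) = (Ideal.absNorm v.asIdeal : ℚ_[ℓ]))
    (ρ : ∀ i : ι, Γ →* Matrix (Fin (N i)) (Fin (N i)) ℚ_[ℓ]) (hρc : ∀ i : ι, Continuous (ρ i))
    (hmult : ∀ (i : ι) (g : Γ), Sim (JL J ℓ i) (ρ i g) (κ g ^ w i))
    (hfrob : ∀ i : ι, ∀ v ∉ S, (ℓ : 𝓞 K) ∉ v.asIdeal → ∀ σ : GK K,
      IsFrobenius v σ → (ρ i (s σ⁻¹)).charpoly = (P i v).map (algebraMap ℚ ℚ_[ℓ]))
    (hcond : ∀ i, CondK (kd i) S (P i) (fun v => (Ideal.absNorm v.asIdeal : ℚ) ^ w i) (N i) ℓ)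
    (hpair : ∀ i j, i ≠ j → ∃ v ∉ S, (ℓ : 𝓞 K) ∉ v.asIdeal ∧
      Indep ((Ideal.absNorm v.asIdeal : ℚ) ^ w i) (P i v) (P j v)) :
    ∀ X, (∀ i, SpLie (JL J ℓ i) (X i)) → JTan ℓ (fun i => (ρ i).comp s) X := by
  classical
  have hfitL : ∀ i : ι, Fits (kd i) (JL J ℓ i) := fun i => (hfit i).map (algebraMap ℚ ℚ_[ℓ])
  have hdetL : ∀ i : ι, (JL J ℓ i).det ≠ 0 := fun i => det_map_ne (algebraMap ℚ ℚ_[ℓ]) (hdet i)
  have hform : ∀ i : ι, IsForm (JL J ℓ i) := fun i => (hfitL i).isForm (hdetL i)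
  have hc : ∀ i, Continuous ((ρ i).comp s) := fun i => (hρc i).comp hs
  have hsim : ∀ i, ∀ g : GK K, ∃ c, Sim (JL J ℓ i) ((ρ i).comp s g) c :=
    fun i g => ⟨_, hmult i (s g)⟩
  have hfs : ∀ i : ι, ∀ v ∉ S, (ℓ : 𝓞 K) ∉ v.asIdeal → ∀ σ : GK K, IsFrobenius v σ →
      Sim (JL J ℓ i) ((ρ i).comp s σ⁻¹)
        ((((Ideal.absNorm v.asIdeal : ℚ) ^ w i : ℚ)) : ℚ_[ℓ]) := by
    intro i v hv hvℓ σ hσ
    have h1 := hmult i (s σ⁻¹)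
    rw [hκ v hv hvℓ σ hσ] at h1
    rw [Rat.cast_pow, Rat.cast_natCast]
    exact h1
  have hq0 : ∀ (i : ι) (v : HeightOneSpectrum (𝓞 K)), (Ideal.absNorm v.asIdeal : ℚ) ^ w i ≠ 0 := by
    intro i v
    refine pow_ne_zero _ ?_
    exact_mod_cast fun h => v.ne_bot (Ideal.absNorm_eq_zero_iff.1 h)
  have hone : ∀ i X, SpLie (JL J ℓ i) X → IsTangent ℓ ((ρ i).comp s) X := by
    intro i
    have h1 := hfitL i
    have h2 := hcond i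
    have h0 := hfit i
    cases hk : kd i with
    | sym =>
      rw [hk] at h1 h2
      exact full_sp (q := fun v => (Ideal.absNorm v.asIdeal : ℚ) ^ w i) h1.2 (hc i) h1.1 (hdetL i)
        (hsim i) (hq0 i) (fun v hv hvℓ σ hσ => ⟨hfrob i v hv hvℓ σ hσ, hfs i v hv hvℓ σ hσ⟩) h2
    | even =>
      rw [hk] at h0 h1 h2
      have hw0 : w i = 0 := hw i h0.1
      refine full_oe (q := fun v => (Ideal.absNorm v.asIdeal : ℚ) ^ w i)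
        (by have := h1.2.2; omega) (hc i) h1.1 (hdetL i) (fun g => ?_)
        (fun v => by simp only [hw0, pow_zero]) (fun v hv hvℓ σ hσ => hfrob i v hv hvℓ σ hσ) h2
      have h3 := hmult i (s g)
      rw [hw0, pow_zero] at h3
      unfold Sim at h3
      rw [one_smul] at h3
      exact h3
    | odd =>
      rw [hk] at h0 h1 h2
      have hw0 : w i = 0 := hw i h0.1
      refine full_oo (by have := h1.2.2; omega) (hc i) h1.1 (hdetL i) (fun g => ?_)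
        (fun v hv hvℓ σ hσ => hfrob i v hv hvℓ σ hσ) h2
      have h3 := hmult i (s g)
      rw [hw0, pow_zero] at h3
      unfold Sim at h3
      rw [one_smul] at h3
      exact h3
  refine PO.joint_full PO.jlie PO.jlift PO.gour (PO.pair PO.jlie PO.jlift)
    (ρ := fun i => (ρ i).comp s) hc hform hsim hone ?_
  intro i j hij Θ h1 h2
  obtain ⟨v, hv, hvℓ, x, hx, hxm⟩ := hpair i j hij
  obtain ⟨σ, hσ⟩ := Pool.Agent.W401.Frob.exists_frob v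
  exact PO.eqv ℓ (N i) (N j) (GK K) ((ρ i).comp s) ((ρ j).comp s) (hc i) (JL J ℓ i) (hform i)
    (hsim i) (hone i) σ⁻¹ (P i v) (P j v) _ (hfrob i v hv hvℓ σ hσ) (hfs i v hv hvℓ σ hσ)
    (hfrob j v hv hvℓ σ hσ) x hx hxm Θ h1 h2

/-- the Mumford-Tate conjecture: the identity component of the closure of the image is the group given
by `Pol` -/
def MTc {ℓ : ℕ} [Fact ℓ.Prime] {Γ : Type} [Group Γ] (Pol : Set (Pf ℚ N))
    (ρ : ∀ i, Γ →* Matrix (Fin (N i)) (Fin (N i)) ℚ_[ℓ]) : Prop :=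
  ∀ x : ∀ i, Matrix (Fin (N i)) (Fin (N i)) (Lc ℓ), (∀ i, (x i).det ≠ 0) →
    ((∀ f : Pf (Lc ℓ) N, (∃ Δ : Subgroup Γ, Δ.FiniteIndex ∧
      ∀ σ ∈ Δ, evf (up fun i => ρ i σ) f = 0) → evf x f = 0) ↔ ∀ f ∈ Pol, val f x = 0)

/-- **main theorem** -/
theorem fp_main (hS : S.Finite) (hs : Continuous s)
    (J : ∀ i, Matrix (Fin (N i)) (Fin (N i)) ℚ)
    (hfit : ∀ i, Fits (kd i) (J i)) (hdet : ∀ i, (J i).det ≠ 0) (hw : ∀ i, (J i)ᵀ = J i → w i = 0)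
    (κ : ∀ (ℓ : ℕ) [Fact ℓ.Prime], Γ →* ℚ_[ℓ])
    (hκ : ∀ (ℓ : ℕ) [Fact ℓ.Prime], ∀ v ∉ S, (ℓ : 𝓞 K) ∉ v.asIdeal → ∀ σ : GK K, IsFrobenius v σ →
      κ ℓ (s σ⁻¹) = (Ideal.absNorm v.asIdeal : ℚ_[ℓ]))
    (ρ : ∀ (i : ι) (ℓ : ℕ) [Fact ℓ.Prime], Γ →* Matrix (Fin (N i)) (Fin (N i)) ℚ_[ℓ])
    (hρc : ∀ (i : ι) (ℓ : ℕ) [Fact ℓ.Prime], Continuous (ρ i ℓ))
    (hmult : ∀ (i : ι) (ℓ : ℕ) [Fact ℓ.Prime] (g : Γ),
      Sim (JL J ℓ i) (ρ i ℓ g) (κ ℓ g ^ w i))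
    (hfrob : ∀ (i : ι) (ℓ : ℕ) [Fact ℓ.Prime], ∀ v ∉ S, (ℓ : 𝓞 K) ∉ v.asIdeal → ∀ σ : GK K,
      IsFrobenius v σ → (ρ i ℓ (s σ⁻¹)).charpoly = (P i v).map (algebraMap ℚ ℚ_[ℓ]))
    (Pol : Set (Pf ℚ N))
    (hpol : ∀ x : ∀ i, Matrix (Fin (N i)) (Fin (N i)) ℂ, (∀ i, (x i).det ≠ 0) →
      (∀ f ∈ Pol, val f x = 0) →
      ∃ t : ℂ, t ≠ 0 ∧ ∀ i, Sim ((J i).map (algebraMap ℚ ℂ)) (x i) (t ^ w i) ∧
        ((J i)ᵀ = J i → (x i).det = 1))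
    (hgal : ∀ (ℓ : ℕ) [Fact ℓ.Prime], ∃ Δ : Subgroup Γ, Δ.FiniteIndex ∧ ∀ σ ∈ Δ, ∀ f ∈ Pol,
      val f (fun i => ρ i ℓ σ) = 0)
    (ℓ₀ : ℕ) [hℓ₀ : Fact ℓ₀.Prime] (hal : ∀ i, Allows (kd i) (N i) ℓ₀ (JL J ℓ₀ i))
    (hcond : ∀ i, CondK (kd i) S (P i) (fun v => (Ideal.absNorm v.asIdeal : ℚ) ^ w i) (N i) ℓ₀)
    (hpair : ∀ i j, i ≠ j → ∃ v ∉ S, (ℓ₀ : 𝓞 K) ∉ v.asIdeal ∧
      Indep ((Ideal.absNorm v.asIdeal : ℚ) ^ w i) (P i v) (P j v)) :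
    (∀ x : ∀ i, Matrix (Fin (N i)) (Fin (N i)) ℂ,
      (∃ t : ℂ, t ≠ 0 ∧ ∀ i, Sim ((J i).map (algebraMap ℚ ℂ)) (x i) (t ^ w i) ∧
        ((J i)ᵀ = J i → (x i).det = 1)) → ∀ f ∈ Pol, val f x = 0) ∧
    MTc Pol (fun i => ρ i ℓ₀) ∧
    Y142.ZI.DensityZero {ℓ | ∃ _ : Fact ℓ.Prime, ¬ MTc Pol (fun i => ρ i ℓ)} ∧
    ∀ (ℓ : ℕ) [Fact ℓ.Prime], (∀ i, SS (ρ i ℓ)) → (∀ i, SC (ρ i ℓ)) →
      MTc Pol (fun i => ρ i ℓ) := by
  classical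
  have hfitL : ∀ (ℓ : ℕ) [Fact ℓ.Prime] (i : ι), Fits (kd i) (JL J ℓ i) := fun ℓ _ i =>
    (hfit i).map (algebraMap ℚ ℚ_[ℓ])
  have hdetL : ∀ (ℓ : ℕ) [Fact ℓ.Prime] (i : ι), (JL J ℓ i).det ≠ 0 := fun ℓ _ i =>
    det_map_ne (algebraMap ℚ ℚ_[ℓ]) (hdet i)
  have hform : ∀ (ℓ : ℕ) [Fact ℓ.Prime] (i : ι), IsForm (JL J ℓ i) := fun ℓ _ i =>
    (hfitL ℓ i).isForm (hdetL ℓ i)
  have hsymJ : ∀ (ℓ : ℕ) [Fact ℓ.Prime] (i : ι), (JL J ℓ i)ᵀ = JL J ℓ i → (J i)ᵀ = J i := by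
    intro ℓ _ i h
    ext p q
    have h1 := congrFun (congrFun h p) q
    exact (algebraMap ℚ ℚ_[ℓ]).injective h1
  have hsys : ∀ (i : ι) (ℓ : ℕ) [Fact ℓ.Prime], Sys s (kd i) (N i) ℓ (ρ i ℓ)
      (JL J ℓ i) S (P i) (fun v => (Ideal.absNorm v.asIdeal : ℚ) ^ w i) := by
    intro i ℓ _
    refine ⟨hρc i ℓ, hfitL ℓ i, hdetL ℓ i, fun γ => ⟨κ ℓ γ ^ w i, hmult i ℓ γ, fun h => ?_⟩, ?_⟩
    · rw [hw i (hsymJ ℓ i h), pow_zero]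
    · intro v hv hvℓ σ hσ
      refine ⟨hfrob i ℓ v hv hvℓ σ hσ, ?_⟩
      have h1 : Sim (JL J ℓ i) (ρ i ℓ (s σ⁻¹)) (κ ℓ (s σ⁻¹) ^ w i) := hmult i ℓ (s σ⁻¹)
      rw [hκ ℓ v hv hvℓ σ hσ] at h1
      show (ρ i ℓ (s σ⁻¹))ᵀ * JL J ℓ i * ρ i ℓ (s σ⁻¹) =
        (((Ideal.absNorm v.asIdeal : ℚ) ^ w i : ℚ) : ℚ_[ℓ]) • JL J ℓ i
      rw [Rat.cast_pow, Rat.cast_natCast]
      exact h1
  have hJC : ∀ (ℓ : ℕ) [Fact ℓ.Prime] (e : Lc ℓ →+* ℂ) (i : ι),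
      (up (JL J ℓ) i).map e = (J i).map (algebraMap ℚ ℂ) := by
    intro ℓ _ e i
    ext k l
    show e (algebraMap ℚ_[ℓ] (Lc ℓ) (algebraMap ℚ ℚ_[ℓ] (J i k l))) = algebraMap ℚ ℂ (J i k l)
    have h7 : e.comp ((algebraMap ℚ_[ℓ] (Lc ℓ)).comp (algebraMap ℚ ℚ_[ℓ])) = algebraMap ℚ ℂ :=
      Subsingleton.elim _ _
    exact RingHom.congr_fun h7 _
  have hmd : ∀ {F F' : Type} [Field F] [Field F'] (e : F →+* F') {n : ℕ}
      (A : Matrix (Fin n) (Fin n) F), (A.map e).det = e A.det := by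
    intro F F' _ _ e n A
    rw [RingHom.map_det, RingHom.mapMatrix_apply]
  have hfull₀ : ∀ X, (∀ i, SpLie (JL J ℓ₀ i) (X i)) →
      JTan ℓ₀ (fun i => (ρ i ℓ₀).comp s) X :=
    joint_one hs J hfit hdet hw ℓ₀ (κ ℓ₀) (hκ ℓ₀) (fun i => ρ i ℓ₀) (fun i => hρc i ℓ₀)
      (fun i g => hmult i ℓ₀ g) (fun i => hfrob i ℓ₀) hcond hpair
  have hsev := PO.several (K := K) PO.tasks hs hS ρ (fun i ℓ _ => JL J ℓ i) hsys ℓ₀ hal hfull₀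
  have hinf : ∀ (ℓ : ℕ) [Fact ℓ.Prime], ∃ σ, ∀ k : ℕ, 0 < k → κ ℓ σ ^ k ≠ 1 := by
    intro ℓ hℓ
    obtain ⟨v, hv, σ', hσ', -⟩ := Y405.ZO.t K Set.univ isOpen_univ ⟨1, trivial⟩
      (S ∪ {v | (ℓ : 𝓞 K) ∈ v.asIdeal}) (hS.union (finite_above ℓ hℓ.out))
    have hvS : v ∉ S := fun h => hv (Or.inl h)
    have hvℓ : (ℓ : 𝓞 K) ∉ v.asIdeal := fun h => hv (Or.inr h)
    refine ⟨s σ'⁻¹, fun k hk h => ?_⟩
    rw [hκ ℓ v hvS hvℓ σ' hσ'] at h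
    have h1 : (Ideal.absNorm v.asIdeal) ^ k = 1 := by exact_mod_cast h
    have h2 : Ideal.absNorm v.asIdeal = 1 := by
      rcases Nat.pow_eq_one.1 h1 with h3 | h3
      · exact h3
      · omega
    exact v.isPrime.ne_top (Ideal.absNorm_eq_one_iff.1 h2)
  -- points of the big group are in the closure
  have hpt : ∀ (ℓ : ℕ) [Fact ℓ.Prime],
      (∀ X, (∀ i, SpLie (JL J ℓ i) (X i)) → JTan ℓ (fun i => ρ i ℓ) X) →
      ∀ x : ∀ i, Matrix (Fin (N i)) (Fin (N i)) (Lc ℓ),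
      (∃ t : ℂ, t ≠ 0 ∧ ∃ e : Lc ℓ ≃+* ℂ, ∀ i,
        Sim ((J i).map (algebraMap ℚ ℂ)) ((x i).map e.toRingHom) (t ^ w i) ∧
        ((J i)ᵀ = J i → ((x i).map e.toRingHom).det = 1)) →
      ∀ f : Pf (Lc ℓ) N, (∃ Δ : Subgroup Γ, Δ.FiniteIndex ∧
        ∀ σ ∈ Δ, evf (up fun i => ρ i ℓ σ) f = 0) → evf x f = 0 := by
    intro ℓ hℓ hfull x ⟨t, ht, e, hx⟩ f ⟨Δ, hΔ, hf⟩
    refine closure_coset (J := JL J ℓ) (fun i => hρc i ℓ) (hform ℓ)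
      (fun i h => hw i (hsymJ ℓ i h)) (hmult · ℓ) (hinf ℓ) hfull hΔ (σ₁ := 1)
      (fun δ hδ => ?_) (t := e.symm t) ((_root_.map_ne_zero e.symm).2 ht) (fun i => ?_)
      fun i hi => ?_
    · rw [one_mul]
      exact hf δ hδ
    · have h1 := (hx i).1
      unfold Sim at h1 ⊢
      rw [← hJC ℓ e.toRingHom i, ← Matrix.transpose_map, ← Matrix.map_mul, ← Matrix.map_mul] at h1
      ext k l
      apply e.injective
      have h2 := congrFun (congrFun h1 k) l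
      rw [Matrix.smul_apply, Matrix.map_apply, Matrix.map_apply, smul_eq_mul] at h2
      rw [Matrix.smul_apply, smul_eq_mul, map_mul, map_pow, RingEquiv.apply_symm_apply]
      exact h2
    · have h1 := (hx i).2 (hsymJ ℓ i hi)
      rw [hmd] at h1
      rw [map_one, det_one, map_one]
      apply e.injective
      rw [map_one]
      exact h1
  have hconc : ∀ (ℓ : ℕ) [Fact ℓ.Prime],
      (∀ X, (∀ i, SpLie (JL J ℓ i) (X i)) → JTan ℓ (fun i => ρ i ℓ) X) →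
      MTc Pol (fun i => ρ i ℓ) := by
    intro ℓ hℓ hfull x hx
    constructor
    · intro hcl f hf
      rw [← evf_val]
      obtain ⟨Δ, hΔ, hΔf⟩ := hgal ℓ
      refine hcl _ ⟨Δ, hΔ, fun σ hσ => ?_⟩
      rw [evf_val]
      have h1 := val_map (algebraMap ℚ_[ℓ] (Lc ℓ)) f (fun i => ρ i ℓ σ)
      rw [hΔf σ hσ f hf, map_zero] at h1
      exact h1
    · intro hPol f hf
      obtain ⟨e⟩ := embC ℓ
      obtain ⟨t, ht, hxt⟩ := hpol (fun i => (x i).map e.toRingHom)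
        (fun i => by rw [hmd]; exact (_root_.map_ne_zero e.toRingHom).2 (hx i))
        (fun f hf => by rw [val_map, hPol f hf, map_zero])
      exact hpt ℓ hfull x ⟨t, ht, e, hxt⟩ f hf
  have hfull₀' : ∀ X, (∀ i, SpLie (JL J ℓ₀ i) (X i)) → JTan ℓ₀ (fun i => ρ i ℓ₀) X := by
    intro X hX
    obtain ⟨σ, hσ⟩ := hfull₀ X hX
    exact ⟨fun k => s (σ k), hσ⟩
  refine ⟨?_, hconc ℓ₀ hfull₀', ?_, ?_⟩
  · rintro x ⟨t, ht, hxt⟩ f hf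
    obtain ⟨e⟩ := embC ℓ₀
    have hxe : ∀ i, ((x i).map e.symm.toRingHom).map e.toRingHom = x i := by
      intro i
      ext k l
      exact e.apply_symm_apply _
    obtain ⟨Δ, hΔ, hΔf⟩ := hgal ℓ₀
    have h1 := hpt ℓ₀ hfull₀' (fun i => (x i).map e.symm.toRingHom)
      ⟨t, ht, e, fun i => by rw [hxe i]; exact hxt i⟩
      (MvPolynomial.map (algebraMap ℚ (Lc ℓ₀)) f) ⟨Δ, hΔ, fun σ hσ => by
        rw [evf_val]
        have h1 := val_map (algebraMap ℚ_[ℓ₀] (Lc ℓ₀)) f (fun i => ρ i ℓ₀ σ)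
        rw [hΔf σ hσ f hf, map_zero] at h1
        exact h1⟩
    rw [evf_val] at h1
    have h2 := val_map e.toRingHom f (fun i => (x i).map e.symm.toRingHom)
    rw [h1, map_zero] at h2
    simp only [hxe] at h2
    exact h2
  · refine Y142.ZI.DensityZero.mono hsev.1 ?_
    rintro ℓ ⟨hp, hno⟩
    refine ⟨hp, fun hall' => hno (hconc ℓ fun X hX => ?_)⟩
    obtain ⟨σ, hσ⟩ := hall' X hX
    exact ⟨fun k => s (σ k), hσ⟩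
  · intro ℓ _ hss hsc
    exact hconc ℓ fun X hX => hsev.2 ℓ hss hsc X hX

end

end

end Pool.Agent.R932.FP
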