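import Pool.Agent.R932.FP.Full
import Pool.Agent.Y134.TF.Span

/-!
# Project FP: the orthogonal case of odd rank
-/

set_option autoImplicit false
set_option linter.unusedSectionVars false
set_option linter.style.haveILetI false

open Matrix Polynomial Filter Topology NumberField IsDedekindDomain
open Pool.Agent.Y142.ZO Pool.Agent.Y142.ZI Pool.Agent.Y142.ZS
open Pool.Agent.R932.PO (JTan IsForm Kind Fits Allows Sys JL det_map_ne IndRoot)
open Pool.Agent.R932.EV (SS SC full_of_genP full_of_genO full_of_good alg_top)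
open Pool.Agent.R932.GR (Lc embC)

namespace Pool.Agent.R932.FP

noncomputable section

section
variable {K : Type} [Field K] [NumberField K] {N : ℕ} {S : Set (HeightOneSpectrum (𝓞 K))}
  {P : HeightOneSpectrum (𝓞 K) → ℚ[X]} {ℓ : ℕ}

/-- the conditions on the Frobenius polynomials in the orthogonal case of odd rank -/
def CondO (S : Set (HeightOneSpectrum (𝓞 K))) (P : HeightOneSpectrum (𝓞 K) → ℚ[X])
    (ℓ : ℕ) [Fact ℓ.Prime] : Prop :=
  (∃ v ∉ S, ∃ w ∉ S, (ℓ : 𝓞 K) ∉ v.asIdeal ∧ (ℓ : 𝓞 K) ∉ w.asIdeal ∧ IsNice (P v) ∧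
    ∃ (ε η : ℚ) (A B : ℚ[X]), ε * ε = 1 ∧ P v = (X - C ε) * A ∧ P w = (X - C η) * B ∧
      Irreducible (A.map (algebraMap ℚ ℚ_[ℓ])) ∧ B.eval 1 ≠ 0 ∧ B.eval (-1) ≠ 0 ∧
      ¬ IsSquare (algebraMap ℚ ℚ_[ℓ] (A.eval 1 * A.eval (-1) * (B.eval 1 * B.eval (-1))))) ∧
  ∃ v ∉ S, (ℓ : 𝓞 K) ∉ v.asIdeal ∧ ∃ A : ℚ[X], P v = (X - 1) * A ∧
    (∀ x : ℂ, aeval x A = 0 → ∀ n : ℕ, 0 < n → x ^ n ≠ 1) ∧
    ∀ x y z : ℂ, aeval x A = 0 → aeval y A = 0 → aeval z A = 0 → x * y ≠ z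

/-- strong irreducibility -/
theorem strong_odd [hℓ : Fact ℓ.Prime] (hN : 3 ≤ N) {ρ : GK K →* Matrix (Fin N) (Fin N) ℚ_[ℓ]}
    {J : Matrix (Fin N) (Fin N) ℚ_[ℓ]} (hJ : Jᵀ = J) (hdet : J.det ≠ 0)
    (hiso : ∀ g, Isom J (ρ g))
    (hfrob : ∀ v ∉ S, (ℓ : 𝓞 K) ∉ v.asIdeal → ∀ σ : GK K, IsFrobenius v σ →
      (ρ σ⁻¹).charpoly = (P v).map (algebraMap ℚ ℚ_[ℓ]))
    (h : CondO S P ℓ) : StronglyIrreducible ℓ ρ := by
  classical
  obtain ⟨⟨v₁, hv₁, v₂, hv₂, hv₁ℓ, hv₂ℓ, hnice, ε, η, A, B, hε, hPA, hPB, hAirr, hB1, hB2, hsq⟩, -⟩ := h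
  obtain ⟨σ₁, hσ₁⟩ := Pool.Agent.W401.Frob.exists_frob v₁
  obtain ⟨σ₂, hσ₂⟩ := Pool.Agent.W401.Frob.exists_frob v₂
  have hc₁ := hfrob v₁ hv₁ hv₁ℓ σ₁ hσ₁
  have hc₂ := hfrob v₂ hv₂ hv₂ℓ σ₂ hσ₂
  obtain ⟨φ, hφ⟩ : ∃ φ : ℚ →+* ℚ_[ℓ], φ = algebraMap ℚ ℚ_[ℓ] := ⟨_, rfl⟩
  rw [← hφ] at hc₁ hc₂ hAirr hsq
  have hev : ∀ (Q : ℚ[X]) (x : ℚ), (Q.map φ).eval (φ x) = φ (Q.eval x) := by
    intro Q x
    rw [eval_map, eval₂_hom]
  have hev1 : ∀ Q : ℚ[X], (Q.map φ).eval 1 = φ (Q.eval 1) := by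
    intro Q
    rw [← hev, map_one]
  have hev2 : ∀ Q : ℚ[X], (Q.map φ).eval (-1) = φ (Q.eval (-1)) := by
    intro Q
    rw [← hev, map_neg, map_one]
  let rep : Representation ℚ_[ℓ] (GK K) (Fin N → ℚ_[ℓ]) :=
    (Matrix.toLinAlgEquiv' : Matrix (Fin N) (Fin N) ℚ_[ℓ] ≃ₐ[ℚ_[ℓ]] _).toMonoidHom.comp ρ
  have hrep : ∀ g u, rep g u = ρ g *ᵥ u := fun g u => rfl
  have hrepc : ∀ g, (rep g).charpoly = (ρ g).charpoly := by
    intro g
    exact Matrix.charpoly_toLin' _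
  let b : (Fin N → ℚ_[ℓ]) →ₗ[ℚ_[ℓ]] (Fin N → ℚ_[ℓ]) →ₗ[ℚ_[ℓ]] ℚ_[ℓ] := Matrix.toBilin' J
  have hb : ∀ x y, b x y = x ⬝ᵥ J *ᵥ y := fun x y => Matrix.toBilin'_apply' J x y
  have hsymm : ∀ x y, b x y = b y x := by
    intro x y
    rw [hb, hb, dotProduct_mulVec, ← mulVec_transpose, hJ, dotProduct_comm]
  have hnd : ∀ x, (∀ y, b x y = 0) → x = 0 := by
    intro x hx
    have h1 : x ᵥ* J = 0 := by
      ext i
      have h2 := hx (Pi.single i 1)
      rw [hb, dotProduct_mulVec, dotProduct_single_one] at h2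
      exact h2
    have h2 : x ᵥ* (J * J⁻¹) = 0 := by rw [← vecMul_vecMul, h1, zero_vecMul]
    rwa [mul_nonsing_inv _ (isUnit_iff_ne_zero.2 hdet), vecMul_one] at h2
  have hinv : ∀ g x y, b (rep g x) (rep g y) = b x y := by
    intro g x y
    rw [hb, hb, hrep, hrep]
    have h1 : (ρ g)ᵀ * J * ρ g = J := hiso g
    calc (ρ g *ᵥ x) ⬝ᵥ J *ᵥ (ρ g *ᵥ y) = x ⬝ᵥ ((ρ g)ᵀ * J * ρ g) *ᵥ y := by
          rw [← mulVec_mulVec, ← mulVec_mulVec, dotProduct_mulVec x, vecMul_transpose]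
      _ = _ := by rw [h1]
  have hdeg : (A.map φ).natDegree = N - 1 := by
    have h1 : (ρ σ₁⁻¹).charpoly.natDegree = N := by
      rw [Matrix.charpoly_natDegree_eq_dim, Fintype.card_fin]
    rw [hc₁, hPA, Polynomial.map_mul, Polynomial.map_sub, map_X, map_C,
      natDegree_mul (X_sub_C_ne_zero _) hAirr.ne_zero, natDegree_X_sub_C] at h1
    omega
  have hεφ : φ ε * φ ε = 1 := by rw [← map_mul, hε, map_one]
  have hTE : Pool.Agent.Y134.TF.TwoElements (Lc ℓ) rep b σ₁⁻¹ σ₂⁻¹ (φ ε) (A.map φ) (φ η)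
      (B.map φ) := by
    refine ⟨hnd, hsymm, hinv, hεφ, ?_, hAirr, by omega, ?_, ?_, ?_, ?_, ?_⟩
    · rw [hrepc, hc₁, hPA, Polynomial.map_mul, Polynomial.map_sub, map_X, map_C]
    · intro x y hx hy n hn hxy
      have h1 : (X - C (φ ε)) * A.map φ = (P v₁).map (algebraMap ℚ ℚ_[ℓ]) := by
        rw [hPA, Polynomial.map_mul, Polynomial.map_sub, map_X, map_C, hφ]
      rw [h1] at hx hy
      exact hnice.dist hn hx hy hxy
    · rw [hrepc, hc₂, hPB, Polynomial.map_mul, Polynomial.map_sub, map_X, map_C]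
    · rw [hev1]
      exact (map_ne_zero φ).2 hB1
    · rw [hev2]
      exact (map_ne_zero φ).2 hB2
    · rw [hev1, hev2, hev1, hev2, ← map_mul, ← map_mul, ← map_mul]
      exact hsq
  -- the vector
  obtain ⟨v, hv0, hv, hvv⟩ := Pool.Agent.Y134.TF.exists_vector hnd (hinv σ₁⁻¹) hεφ hTE.charpoly₁
    (Pool.Agent.Y134.TF.not_root hTE.irreducible hTE.degree _)
  have hxr : aeval (algebraMap ℚ_[ℓ] (Lc ℓ) (φ ε)) ((P v₁).map (algebraMap ℚ ℚ_[ℓ])) = 0 := by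
    rw [aeval_algebraMap_apply_eq_algebraMap_eval, ← hφ, hev, hPA, eval_mul, eval_sub, eval_X,
      eval_C, sub_self, zero_mul, map_zero, map_zero]
  obtain ⟨u₀, hu₀, -, hline⟩ := eigenline (g := ρ σ₁⁻¹) (x := φ ε) (by
      rw [hc₁, hev, hPA, eval_mul, eval_sub, eval_X, eval_C, sub_self, zero_mul, map_zero]) (by
      rw [hc₁]
      exact hnice.1.map) (left_ne_zero_of_mul (by rw [hεφ]; exact one_ne_zero))
    (fun n hn y hy hyn => by
      rw [hc₁, hφ] at hy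
      exact hnice.dist hn hy hxr hyn)
  have hline' : ∀ n : ℕ, 0 < n → ∀ u, (ρ σ₁⁻¹) ^ n *ᵥ u = (φ ε) ^ n • u → ∃ c : ℚ_[ℓ], u = c • v := by
    obtain ⟨a, ha⟩ := hline 1 one_pos v (by
      rw [pow_one, pow_one, ← hrep]
      exact hv)
    have ha0 : a ≠ 0 := by
      rintro rfl
      exact hv0 (by rw [ha, zero_smul])
    intro n hn u hu
    obtain ⟨c, hc⟩ := hline n hn u hu
    refine ⟨c * a⁻¹, ?_⟩
    rw [ha, smul_smul, mul_assoc, inv_mul_cancel₀ ha0, mul_one]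
    exact hc
  have hspan : ∀ H : Subgroup (GK K), H.FiniteIndex →
      Submodule.span ℚ_[ℓ] {x | ∃ g ∈ H, x = rep g v} = ⊤ := fun H hH => hTE.span_top hvv hv hH
  intro U W hU hW
  by_contra hcon
  push Not at hcon
  obtain ⟨hbot, htop⟩ := hcon
  haveI hUf : U.FiniteIndex := by
    haveI := U.quotient_finite_of_isOpen hU
    exact Subgroup.finiteIndex_of_finite_quotient
  have horb : v ∉ W := by
    intro hvW
    apply htop
    rw [eq_top_iff, ← hspan U hUf, Submodule.span_le]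
    rintro _ ⟨g, hg, rfl⟩
    exact hW g hg v hvW
  obtain ⟨m, hm, -, hmU⟩ := U.exists_pow_mem_of_index_ne_zero hUf.index_ne_zero σ₁⁻¹
  -- the restriction to the complement of `v`
  have hpl := Pool.Agent.Y134.TF.perp_le (hinv σ₁⁻¹) hvv hv
  obtain ⟨-, -, hcp⟩ := Pool.Agent.Y134.TF.charpoly_restrict hnd (hinv σ₁⁻¹) hTE.charpoly₁
    (Pool.Agent.Y134.TF.not_root hTE.irreducible hTE.degree 1)
    (Pool.Agent.Y134.TF.not_root hTE.irreducible hTE.degree (-1)) hvv hv hpl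
  set W₀ := Pool.Agent.Y134.Two.perp b v with hW₀
  have hmem : ∀ x, x ∈ W₀ ↔ b v x = 0 := fun x => Pool.Agent.Y134.Two.mem_perp
  set f : Module.End ℚ_[ℓ] W₀ := (rep σ₁⁻¹).restrict hpl with hf
  have hfpow : ∀ (n : ℕ) (x : W₀), ((f ^ n) x : Fin N → ℚ_[ℓ]) = ρ σ₁⁻¹ ^ n *ᵥ x := by
    intro n x
    induction n with
    | zero => rw [pow_zero, pow_zero, one_mulVec]; rfl
    | succ n ih =>
      rw [pow_succ', Module.End.mul_apply, pow_succ', ← mulVec_mulVec, ← ih]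
      rfl
  have hpowv : ∀ n : ℕ, ρ σ₁⁻¹ ^ n *ᵥ v = (φ ε) ^ n • v := by
    intro n
    induction n with
    | zero => rw [pow_zero, pow_zero, one_mulVec, one_smul]
    | succ n ih =>
      have h1 : ρ σ₁⁻¹ *ᵥ v = φ ε • v := hv
      rw [pow_succ, ← mulVec_mulVec, h1, mulVec_smul, ih, smul_smul, pow_succ, mul_comm]
  have hdec : ∀ x, x - (b v x / b v v) • v ∈ W₀ := by
    intro x
    rw [hmem, map_sub, map_smul, smul_eq_mul, div_mul_cancel₀ _ hvv, sub_self]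
  have hor := Pool.Agent.Y134.TF.eq_top_of_stable (E := Lc ℓ) (f := f) (by rw [hcp]; exact hAirr)
    (by
      rw [hcp]
      intro x y hx hy n hn hxy
      exact hTE.ratio x y (by rw [map_mul, hx, mul_zero]) (by rw [map_mul, hy, mul_zero]) n hn hxy)
    hm (U := W.comap W₀.subtype) (by
      intro x hx
      rw [Submodule.mem_comap] at hx ⊢
      change ((f ^ m) x : Fin N → ℚ_[ℓ]) ∈ W
      rw [hfpow, ← map_pow]
      exact hW _ hmU _ hx)
  by_cases h0 : W.comap W₀.subtype = ⊥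
  · -- `W` is in the line of `v`
    apply hbot
    rw [eq_bot_iff]
    intro x hx
    have h1 : ρ σ₁⁻¹ ^ m *ᵥ x = (φ ε) ^ m • x := by
      have h2 : ρ σ₁⁻¹ ^ m *ᵥ x - (φ ε) ^ m • x ∈ W := by
        refine W.sub_mem ?_ (W.smul_mem _ hx)
        rw [← map_pow]
        exact hW _ hmU _ hx
      have h3 : ρ σ₁⁻¹ ^ m *ᵥ x - (φ ε) ^ m • x ∈ W₀ := by
        rw [hmem, map_sub, map_smul, smul_eq_mul, sub_eq_zero]
        have h4 : b (rep (σ₁⁻¹ ^ m) v) (rep (σ₁⁻¹ ^ m) x) = b v x := hinv _ _ _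
        rw [hrep, hrep, map_pow, hpowv, map_smul, LinearMap.smul_apply, smul_eq_mul] at h4
        have h5 : (φ ε) ^ m * (φ ε) ^ m = 1 := by rw [← mul_pow, hεφ, one_pow]
        calc b v (ρ σ₁⁻¹ ^ m *ᵥ x) = ((φ ε) ^ m * (φ ε) ^ m) * b v (ρ σ₁⁻¹ ^ m *ᵥ x) := by
              rw [h5, one_mul]
          _ = (φ ε) ^ m * b v x := by rw [mul_assoc, h4]
      have h4 : (⟨_, h3⟩ : W₀) ∈ W.comap W₀.subtype := h2
      rw [h0, Submodule.mem_bot] at h4
      exact sub_eq_zero.1 (congrArg Subtype.val h4)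
    obtain ⟨c, hc⟩ := hline' m hm x h1
    rw [Submodule.mem_bot]
    by_contra hx0
    have hc0 : c ≠ 0 := by
      rintro rfl
      exact hx0 (by rw [hc, zero_smul])
    apply horb
    have h2 := W.smul_mem c⁻¹ hx
    rwa [hc, smul_smul, inv_mul_cancel₀ hc0, one_smul] at h2
  · have h1 := hor h0
    have hle : ∀ y, b v y = 0 → y ∈ W := by
      intro y hy
      have h2 : (⟨y, (hmem y).2 hy⟩ : W₀) ∈ W.comap W₀.subtype := by
        rw [h1]
        exact Submodule.mem_top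
      exact h2
    have hge : ∀ x ∈ W, b v x = 0 := by
      intro x hx
      by_contra h2
      apply horb
      have h3 : (b v x / b v v) • v ∈ W := by
        have h4 := W.sub_mem hx (hle _ ((hmem _).1 (hdec x)))
        rwa [sub_sub_cancel] at h4
      have h5 := W.smul_mem (b v x / b v v)⁻¹ h3
      rwa [smul_smul, inv_mul_cancel₀ (div_ne_zero h2 hvv), one_smul] at h5
    have hgv : ∀ g ∈ U, ∃ c : ℚ_[ℓ], rep g v = c • v := by
      intro g hg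
      refine ⟨b v (rep g v) / b v v, ?_⟩
      rw [← sub_eq_zero]
      apply hnd
      intro y
      have h2 : ∀ z, b v z = 0 → b (rep g v) z = 0 := by
        intro z hz
        have h3 : rep g (rep g⁻¹ z) = z := by
          rw [← Module.End.mul_apply, ← map_mul, mul_inv_cancel, map_one, Module.End.one_apply]
        rw [← h3, hinv]
        exact hge _ (hW _ (U.inv_mem hg) z (hle z hz))
      have hl : ∀ (x x' z : Fin N → ℚ_[ℓ]) (c : ℚ_[ℓ]), b (x - c • x') z = b x z - c * b x' z := by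
        intro x x' z c
        rw [map_sub, map_smul, LinearMap.sub_apply, LinearMap.smul_apply, smul_eq_mul]
      have hr : ∀ (x x' z : Fin N → ℚ_[ℓ]) (c : ℚ_[ℓ]), b z (x - c • x') = b z x - c * b z x' := by
        intro x x' z c
        rw [map_sub, map_smul, smul_eq_mul]
      have h4 := h2 _ ((hmem _).1 (hdec y))
      rw [hr, hsymm (rep g v) v] at h4
      rw [hl]
      have h5 : b (rep g v) y = b v y / b v v * b v (rep g v) := by linear_combination h4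
      rw [h5]
      field_simp
      ring
    have h2 := hspan U hUf
    have h3 : ∀ x : Fin N → ℚ_[ℓ], ∃ c : ℚ_[ℓ], x = c • v := by
      intro x
      have h4 : x ∈ Submodule.span ℚ_[ℓ] {v} := by
        have h5 : Submodule.span ℚ_[ℓ] {x | ∃ g ∈ U, x = rep g v} ≤ Submodule.span ℚ_[ℓ] {v} := by
          rw [Submodule.span_le]
          rintro _ ⟨g, hg, rfl⟩
          obtain ⟨c, hc⟩ := hgv g hg
          rw [hc]
          exact Submodule.smul_mem _ _ (Submodule.mem_span_singleton_self v)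
        rw [h2] at h5
        exact h5 Submodule.mem_top
      obtain ⟨c, hc⟩ := Submodule.mem_span_singleton.1 h4
      exact ⟨c, hc.symm⟩
    apply hbot
    rw [eq_bot_iff]
    intro x hx
    obtain ⟨c, hc⟩ := h3 x
    have h4 := hge x hx
    rw [hc, map_smul, smul_eq_mul] at h4
    rw [Submodule.mem_bot, hc, (mul_eq_zero.1 h4).resolve_right hvv, zero_smul]

/-- **the full orthogonal Lie algebra, odd rank** -/
theorem full_oo [hℓ : Fact ℓ.Prime] (hN : 3 ≤ N) {ρ : GK K →* Matrix (Fin N) (Fin N) ℚ_[ℓ]}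
    (hρ : Continuous ρ) {J : Matrix (Fin N) (Fin N) ℚ_[ℓ]} (hJ : Jᵀ = J) (hdet : J.det ≠ 0)
    (hiso : ∀ g, Isom J (ρ g))
    (hfrob : ∀ v ∉ S, (ℓ : 𝓞 K) ∉ v.asIdeal → ∀ σ : GK K, IsFrobenius v σ →
      (ρ σ⁻¹).charpoly = (P v).map (algebraMap ℚ ℚ_[ℓ]))
    (h : CondO S P ℓ) : ∀ X, SpLie J X → IsTangent ℓ ρ X := by
  have h1 := strong_odd hN hJ hdet hiso hfrob h
  obtain ⟨-, v, hv, hvℓ, A, hA, hroot, h0⟩ := h
  have hG : GoodPlace S P v A := by
    refine ⟨hv, hA, fun n hn => ?_⟩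
    refine (Polynomial.isCoprime_iff_aeval_ne_zero_of_isAlgClosed ℚ ℂ A (X ^ n - 1)).2 ?_
    intro x
    by_cases hx : aeval x A = 0
    · right
      rw [map_sub, map_pow, aeval_X, map_one, sub_ne_zero]
      exact hroot x hx n hn
    · exact Or.inl hx
  have h4 := full_of_good hG h0 ℓ (MonoidHom.id (GK K)) ρ J hρ hJ hdet hiso
    (fun σ hσ => hfrob v hv hvℓ σ hσ) h1
  exact fun X hX => h4 X ((PO.skew_sp hJ).2 hX)

end

end

end Pool.Agent.R932.FP
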